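import Pool.Agent.H37.CNJ.Stmts

/-!
# Row UT3 of the board `cnj`: unitriangular `3 × 3` matrices
-/

set_option autoImplicit false

namespace Pool.CND

open Finset
open scoped Matrix

section

variable {F : Type} [Field F]

/-- the unitriangular matrix with entries `x, y, z` in the places `01, 12, 02` -/
def ut3M (x y z : F) : Matrix (Fin 3) (Fin 3) F := !![1, x, z; 0, 1, y; 0, 0, 1]

theorem ut3M_mul (x y z x' y' z' : F) :
    ut3M x y z * ut3M x' y' z' = ut3M (x + x') (y + y') (z + z' + x * y') := by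
  ext i j
  fin_cases i <;> fin_cases j <;> simp [ut3M, Matrix.mul_apply, Fin.sum_univ_three] <;> ring

theorem ut3M_zero : ut3M (0 : F) 0 0 = 1 := by
  ext i j
  fin_cases i <;> fin_cases j <;> simp [ut3M]

/-- as an element of `GL_3` -/
def ut3 (x y z : F) : Matrix.GeneralLinearGroup (Fin 3) F where
  val := ut3M x y z
  inv := ut3M (-x) (-y) (x * y - z)
  val_inv := by
    rw [ut3M_mul, ← ut3M_zero]
    congr 1 <;> ring
  inv_val := by
    rw [ut3M_mul, ← ut3M_zero]
    congr 1 <;> ring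

end

theorem ut3_thm (h1 : S_ZHF) (h2 : S_ZUW) : S_UT3 := by
  intro p f q k F _ _ _ _ _ _ S hp hp2 hq hcF hS
  classical
  have hmem : ∀ x y z : F, ut3 x y z ∈ S := by
    intro x y z
    rw [hS]
    refine ⟨fun i j hij => ?_, fun i => ?_⟩
    · show ut3M x y z i j = 0
      fin_cases i <;> fin_cases j <;> first | rfl | exact absurd hij (by decide)
    · show ut3M x y z i i = 1
      fin_cases i <;> rfl
  obtain ⟨mk, hmk⟩ : ∃ mk : F → F → F → S, ∀ x y z, ((mk x y z : S) : Matrix.GeneralLinearGroup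
      (Fin 3) F) = ut3 x y z := ⟨fun x y z => ⟨ut3 x y z, hmem x y z⟩, fun _ _ _ => rfl⟩
  have hmul : ∀ x y z x' y' z' : F,
      mk x y z * mk x' y' z' = mk (x + x') (y + y') (z + z' + x * y') := by
    intro x y z x' y' z'
    apply Subtype.ext
    rw [Subgroup.coe_mul, hmk, hmk, hmk]
    exact Units.ext (ut3M_mul x y z x' y' z')
  have hone : mk 0 0 0 = 1 := by
    apply Subtype.ext
    rw [hmk]
    exact Units.ext ut3M_zero
  have hent : ∀ x y z : F, (mk x y z).1.1 0 1 = x ∧ (mk x y z).1.1 1 2 = y ∧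
      (mk x y z).1.1 0 2 = z := by
    intro x y z
    rw [hmk]
    exact ⟨rfl, rfl, rfl⟩
  have hinj : ∀ x y z x' y' z' : F, mk x y z = mk x' y' z' → x = x' ∧ y = y' ∧ z = z' := by
    intro x y z x' y' z' h
    have e1 := hent x y z
    have e2 := hent x' y' z'
    rw [h] at e1
    exact ⟨e1.1.symm.trans e2.1, e1.2.1.symm.trans e2.2.1, e1.2.2.symm.trans e2.2.2⟩
  have hsur : ∀ g : S, ∃ x y z : F, g = mk x y z := by
    intro g
    refine ⟨g.1.1 0 1, g.1.1 1 2, g.1.1 0 2, ?_⟩
    apply Subtype.ext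
    rw [hmk]
    obtain ⟨g1, g2⟩ := (hS g.1).1 g.2
    apply Units.ext
    ext i j
    show g.1.1 i j = ut3M (g.1.1 0 1) (g.1.1 1 2) (g.1.1 0 2) i j
    fin_cases i <;> fin_cases j
    · exact g2 0
    · rfl
    · rfl
    · exact g1 1 0 (by decide)
    · exact g2 1
    · rfl
    · exact g1 2 0 (by decide)
    · exact g1 2 1 (by decide)
    · exact g2 2
  -- the order
  have hcard : Nat.card S = p ^ (3 * f) := by
    have h3 : Function.Bijective (fun v : F × F × F => mk v.1 v.2.1 v.2.2) := by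
      constructor
      · rintro ⟨x, y, z⟩ ⟨x', y', z'⟩ h
        obtain ⟨rfl, rfl, rfl⟩ := hinj _ _ _ _ _ _ h
        rfl
      · intro g
        obtain ⟨x, y, z, rfl⟩ := hsur g
        exact ⟨(x, y, z), rfl⟩
    rw [← Nat.card_congr (Equiv.ofBijective _ h3), Nat.card_prod, Nat.card_prod, hcF, hq]
    ring
  have hS' : ∃ a : ℕ, Nat.card S = p ^ a := ⟨3 * f, hcard⟩
  have hgcd : Nat.gcd 2 p = 1 := (Nat.coprime_primes Nat.prime_two hp).2 (Ne.symm hp2)
  apply Nat.dvd_antisymm
  · -- the upper bound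
    rw [hq]
    refine (h2 p f k S hp hS' fun z hz _ hz1 => ?_).2
    obtain ⟨x, y, w, rfl⟩ := hsur z
    have hx : x = 0 := by
      have h3 := Subgroup.mem_center_iff.1 hz (mk 0 1 0)
      rw [hmul, hmul] at h3
      have h4 := (hinj _ _ _ _ _ _ h3).2.2
      linear_combination -h4
    let φ : S →* Multiplicative F := MonoidHom.mk' (fun g => Multiplicative.ofAdd (g.1.1 0 1)) (by
      intro g h
      obtain ⟨x, y, z, rfl⟩ := hsur g
      obtain ⟨x', y', z', rfl⟩ := hsur h
      rw [hmul, (hent _ _ _).1, (hent _ _ _).1, (hent _ _ _).1]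
      rfl)
    have hφ : ∀ x y z : F, φ (mk x y z) = Multiplicative.ofAdd x := by
      intro x y z
      show Multiplicative.ofAdd ((mk x y z).1.1 0 1) = _
      rw [(hent _ _ _).1]
    have hker : ∀ g : S, g ∈ φ.ker → ∃ y z : F, g = mk 0 y z := by
      intro g hg
      obtain ⟨x, y, z, rfl⟩ := hsur g
      rw [MonoidHom.mem_ker, hφ] at hg
      have h3 : x = 0 := hg
      rw [h3]
      exact ⟨y, z, rfl⟩
    refine ⟨φ.ker, ?_, ⟨⊥, bot_le, ?_, ?_, Or.inl ?_⟩, ?_⟩
    · rw [MonoidHom.mem_ker, hφ, hx]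
      rfl
    · intro h _ g hg
      rw [Subgroup.mem_bot] at hg ⊢
      rw [hg, mul_one, mul_inv_cancel]
    · rw [Subgroup.mem_bot]
      exact hz1
    · intro g hg h hh
      obtain ⟨y, z, rfl⟩ := hker g hg
      obtain ⟨y', z', rfl⟩ := hker h hh
      rw [Subgroup.mem_bot, mul_inv_eq_one, mul_inv_eq_iff_eq_mul, hmul, hmul]
      congr 1 <;> ring
    · have h3 : Function.Surjective φ := fun x => ⟨mk x.toAdd 0 0, hφ _ _ _⟩
      rw [Subgroup.index_ker, MonoidHom.range_eq_top.2 h3, Subgroup.card_top, ← hq, ← hcF]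
      exact dvd_of_eq (Nat.card_congr Multiplicative.toAdd)
  · -- the lower bound
    have h3 := h1 p 1 1 k F S (fun a c => mk 0 (a 0) (c 0))
      (fun g => Matrix.of fun _ _ => g.1.1 0 1) hp le_rfl le_rfl hS' ?_ ?_ ?_ ?_ ?_
    · rw [hgcd, one_mul, pow_one, hcF] at h3
      exact h3
    · intro a a' c c'
      show mk 0 ((a + a') 0) ((c + c') 0) = mk 0 (a 0) (c 0) * mk 0 (a' 0) (c' 0)
      rw [hmul, Pi.add_apply, Pi.add_apply]
      congr 1 <;> ring
    · intro a c h
      have h4 : mk 0 (a 0) (c 0) = mk 0 0 0 := by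
        rw [hone]
        exact h
      obtain ⟨-, h5, h6⟩ := hinj _ _ _ _ _ _ h4
      refine ⟨funext fun i => ?_, funext fun i => ?_⟩
      · rw [Subsingleton.elim i 0]
        exact h5
      · rw [Subsingleton.elim i 0]
        exact h6
    · intro g h
      obtain ⟨x, y, z, rfl⟩ := hsur g
      obtain ⟨x', y', z', rfl⟩ := hsur h
      ext i j
      rw [hmul, Matrix.add_apply, Matrix.of_apply, Matrix.of_apply, Matrix.of_apply,
        (hent _ _ _).1, (hent _ _ _).1, (hent _ _ _).1]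
    · intro b
      refine ⟨mk (b 0 0) 0 0, ?_⟩
      ext i j
      show (mk (b 0 0) 0 0).1.1 0 1 = b i j
      rw [(hent _ _ _).1, Subsingleton.elim i 0, Subsingleton.elim j 0]
    · intro g a c
      obtain ⟨x, y, z, rfl⟩ := hsur g
      have h4 : ((Matrix.of fun (_ _ : Fin 1) => (mk x y z).1.1 0 1) *ᵥ a) 0 = x * a 0 := by
        rw [Matrix.mulVec, dotProduct, Fin.sum_univ_one, Matrix.of_apply, (hent _ _ _).1]
      show mk x y z * mk 0 (a 0) (c 0) * (mk x y z)⁻¹ =
        mk 0 (a 0) ((c + (Matrix.of fun (_ _ : Fin 1) => (mk x y z).1.1 0 1) *ᵥ a) 0)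
      rw [mul_inv_eq_iff_eq_mul, Pi.add_apply, h4, hmul, hmul]
      congr 1 <;> ring

end Pool.CND
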